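import Pool.Agent.Helper27.CD.Spec

/-! Parts P3a, P3b of the CD project: the one-coordinate functional. -/

namespace Pool.Agent.Helper47.CD

open Real Helper27.CD

/-- Gibbs inequality for one term -/
theorem gibbs (x m : ℝ) (hx : 0 ≤ x) (hm : 0 < m) : x - m ≤ x * log x - x * log m := by
  rcases hx.eq_or_lt with h | h
  · rw [← h]; simp; exact hm.le
  · have h1 := Real.log_le_sub_one_of_pos (div_pos hm h)
    rw [Real.log_div hm.ne' h.ne'] at h1
    have h2 : x * (log m - log x) ≤ x * (m / x - 1) := mul_le_mul_of_nonneg_left h1 h.le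
    have h3 : x * (m / x - 1) = m - x := by field_simp
    rw [h3] at h2
    linarith

theorem lemK (p a b c : ℝ) (hp : 0 < p) (hp1 : p < 1) (ha : 0 ≤ a) (hb : 0 ≤ b) (hc : 0 ≤ c)
    (h : a + b + c = 1) :
    0 ≤ (a * log a + b * log b + c * log c) - a * log (1 - p) - (1 - a) * log (p / 2) := by
  have h1 := gibbs a (1 - p) ha (by linarith)
  have h2 := gibbs b (p / 2) hb (by linarith)
  have h3 := gibbs c (p / 2) hc (by linarith)
  have e : (1 - a) * log (p / 2) = b * log (p / 2) + c * log (p / 2) := by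
    rw [← add_mul]; congr 1; linarith
  rw [e]
  linarith

theorem lemKK (p a b c : ℝ) (hp : 0 < p) (hp1 : p < 1) (ha : 0 ≤ a) (hb : 0 ≤ b) (hc : 0 ≤ c)
    (h : a + b + c = 1) :
    (1 - 3 * p / 2) ^ 2 ≤
      ((a * log a + b * log b + c * log c) - a * log (1 - p) - (1 - a) * log (p / 2)) +
      ((a * log a + b * log b + c * log c) - b * log (1 - p) - (1 - b) * log (p / 2)) := by
  have hq : 0 < (1 - p) * (p / 2) := mul_pos (by linarith) (by linarith)
  set r := Real.sqrt ((1 - p) * (p / 2)) with hr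
  have hr0 : 0 < r := Real.sqrt_pos.2 hq
  have hrr : r * r = (1 - p) * (p / 2) := Real.mul_self_sqrt hq.le
  have hlog : log r + log r = log (1 - p) + log (p / 2) := by
    rw [← Real.log_mul hr0.ne' hr0.ne', hrr, Real.log_mul (by linarith) (by linarith)]
  have h1 := gibbs a r ha hr0
  have h2 := gibbs b r hb hr0
  have h3 := gibbs c (p / 2) hc (by linarith)
  have e1 : (1 - a) * log (p / 2) = b * log (p / 2) + c * log (p / 2) := by
    rw [← add_mul]; congr 1; linarith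
  have e2 : (1 - b) * log (p / 2) = a * log (p / 2) + c * log (p / 2) := by
    rw [← add_mul]; congr 1; linarith
  have e3 : a * log r + a * log r = a * log (1 - p) + a * log (p / 2) := by
    rw [← mul_add, ← mul_add, hlog]
  have e4 : b * log r + b * log r = b * log (1 - p) + b * log (p / 2) := by
    rw [← mul_add, ← mul_add, hlog]
  rw [e1, e2]
  have key : (1 - 3 * p / 2) ^ 2 ≤ 2 * (1 - 2 * r - p / 2) := by
    have f1 : (1 - 3 * p / 2) ^ 2 = (1 - p / 2 - 2 * r) * (1 - p / 2 + 2 * r) := by nlinarith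
    have f2 : 2 * r ≤ 1 - p / 2 := by
      refine le_of_sq_le_sq ?_ (by linarith)
      nlinarith [sq_nonneg (1 - 3 * p / 2)]
    have f3 : 2 * r ≤ 1 + p / 2 := by linarith
    rw [f1]
    nlinarith
  linarith

theorem lemK4 (p a b c : ℝ) (hp : 0 < p) (hp1 : p < 1) (ha : 0 ≤ a) (hb : 0 ≤ b) (hc : 0 ≤ c)
    (h : a + b + c = 1) (h4 : 1 - a ≤ p / 4) :
    p / 4 ≤ (a * log a + b * log b + c * log c) - a * log (1 - p) - (1 - a) * log (p / 2) := by
  have h1 := gibbs a (1 - p) ha (by linarith)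
  have h2 := gibbs b (p / 2 / 2) hb (by linarith)
  have h3 := gibbs c (p / 2 / 2) hc (by linarith)
  have e : (1 - a) * log (p / 2) = b * log (p / 2) + c * log (p / 2) := by
    rw [← add_mul]; congr 1; linarith
  have e2 : log (p / 2 / 2) = log (p / 2) - log 2 := Real.log_div (by linarith) (by norm_num)
  rw [e2, mul_sub] at h2 h3
  rw [e]
  have l2 := Real.log_two_lt_d9
  have h5 : b * log 2 + c * log 2 ≤ (p / 4) * 1 := by
    rw [← add_mul]
    refine mul_le_mul (by linarith) (by linarith) (Real.log_nonneg (by norm_num)) (by linarith)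
  linarith

theorem phi_eq (p : ℝ) (x y : ZMod 3 → ℝ) (hy : y ∈ stdSimplex ℝ (ZMod 3)) :
    phi p x y =
      - (y 0 * ((x 0 * log (x 0) + x 1 * log (x 1) + x 2 * log (x 2)) - x 0 * log (1 - p)
          - (1 - x 0) * log (p / 2))
        + y 1 * ((x 0 * log (x 0) + x 1 * log (x 1) + x 2 * log (x 2)) - x 1 * log (1 - p)
          - (1 - x 1) * log (p / 2))
        + y 2 * ((x 0 * log (x 0) + x 1 * log (x 1) + x 2 * log (x 2)) - x 2 * log (1 - p)
          - (1 - x 2) * log (p / 2))) := by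
  have s : ∀ f : ZMod 3 → ℝ, ∑ i, f i = f 0 + f 1 + f 2 := fun f => Fin.sum_univ_three f
  have hy1 : y 0 + y 1 + y 2 = 1 := by rw [← s]; exact hy.2
  unfold phi Real.negMulLog
  rw [s, s]
  have e : y 2 = 1 - y 0 - y 1 := by linarith
  rw [e]
  ring

/-- the abstract form of the gap estimate -/
theorem gap_aux (K0 K1 K2 y0 y1 y2 T : ℝ) (h0 : 0 ≤ K0) (h1 : 0 ≤ K1) (h2 : 0 ≤ K2)
    (hy1 : 0 ≤ y1) (hy2 : 0 ≤ y2) (hs : y0 + y1 + y2 = 1) (m1 : y1 ≤ y0) (m2 : y2 ≤ y0)
    (k1 : T ≤ K0 + K1) (k2 : T ≤ K0 + K2) :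
    - (y0 * K0 + y1 * K1 + y2 * K2) ≤ - (T / 2) * (1 - y0) := by
  have a1 : y1 * T ≤ y1 * (K0 + K1) := mul_le_mul_of_nonneg_left k1 hy1
  have a2 : y2 * T ≤ y2 * (K0 + K2) := mul_le_mul_of_nonneg_left k2 hy2
  have b1 : y1 * K0 ≤ y0 * K0 := mul_le_mul_of_nonneg_right m1 h0
  have b2 : y2 * K0 ≤ y0 * K0 := mul_le_mul_of_nonneg_right m2 h0
  have c1 : 0 ≤ y1 * K1 := mul_nonneg hy1 h1
  have c2 : 0 ≤ y2 * K2 := mul_nonneg hy2 h2
  have e : 1 - y0 = y1 + y2 := by linarith
  rw [e]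
  nlinarith

theorem phi_gap : S_phi_gap := by
  intro p x y hp hp1 hx hy u hu
  have s : ∀ f : ZMod 3 → ℝ, ∑ i, f i = f 0 + f 1 + f 2 := fun f => Fin.sum_univ_three f
  have hx1 : x 0 + x 1 + x 2 = 1 := by rw [← s]; exact hx.2
  have hy1 : y 0 + y 1 + y 2 = 1 := by rw [← s]; exact hy.2
  have x0 := hx.1 0
  have x1 := hx.1 1
  have x2 := hx.1 2
  have y0 := hy.1 0
  have y1 := hy.1 1
  have y2 := hy.1 2
  have K0 := lemK p (x 0) (x 1) (x 2) hp hp1 x0 x1 x2 hx1
  have K1 := lemK p (x 1) (x 0) (x 2) hp hp1 x1 x0 x2 (by linarith)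
  have K2 := lemK p (x 2) (x 0) (x 1) hp hp1 x2 x0 x1 (by linarith)
  have K01 := lemKK p (x 0) (x 1) (x 2) hp hp1 x0 x1 x2 hx1
  have K02 := lemKK p (x 0) (x 2) (x 1) hp hp1 x0 x2 x1 (by linarith)
  have K12 := lemKK p (x 1) (x 2) (x 0) hp hp1 x1 x2 x0 (by linarith)
  have hu0 := hu 0
  have hu1 := hu 1
  have hu2 := hu 2
  rw [phi_eq p x y hy]
  have hu' : u = 0 ∨ u = 1 ∨ u = 2 := by
    fin_cases u
    · left; rfl
    · right; left; rfl
    · right; right; rfl
  rcases hu' with h | h | h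
  · subst h
    refine gap_aux _ _ _ _ _ _ _ (by linarith) (by linarith) (by linarith) y1 y2 hy1 hu1 hu2
      (by linarith) (by linarith)
  · subst h
    have := gap_aux
      ((x 0 * log (x 0) + x 1 * log (x 1) + x 2 * log (x 2)) - x 1 * log (1 - p)
          - (1 - x 1) * log (p / 2))
      ((x 0 * log (x 0) + x 1 * log (x 1) + x 2 * log (x 2)) - x 0 * log (1 - p)
          - (1 - x 0) * log (p / 2))
      ((x 0 * log (x 0) + x 1 * log (x 1) + x 2 * log (x 2)) - x 2 * log (1 - p)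
          - (1 - x 2) * log (p / 2)) (y 1) (y 0) (y 2) ((1 - 3 * p / 2) ^ 2)
      (by linarith) (by linarith) (by linarith) y0 y2 (by linarith) hu0 hu2
      (by linarith) (by linarith)
    linarith
  · subst h
    have := gap_aux
      ((x 0 * log (x 0) + x 1 * log (x 1) + x 2 * log (x 2)) - x 2 * log (1 - p)
          - (1 - x 2) * log (p / 2))
      ((x 0 * log (x 0) + x 1 * log (x 1) + x 2 * log (x 2)) - x 0 * log (1 - p)
          - (1 - x 0) * log (p / 2))
      ((x 0 * log (x 0) + x 1 * log (x 1) + x 2 * log (x 2)) - x 1 * log (1 - p)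
          - (1 - x 1) * log (p / 2)) (y 2) (y 0) (y 1) ((1 - 3 * p / 2) ^ 2)
      (by linarith) (by linarith) (by linarith) y0 y1 (by linarith) hu0 hu1
      (by linarith) (by linarith)
    linarith

/-- the abstract form of the estimate in the clean case -/
theorem clean_aux (p K0 K1 K2 y0 y1 y2 T : ℝ) (hp : 0 < p) (hp1 : p < 1) (h1 : 0 ≤ K1)
    (h2 : 0 ≤ K2) (hy1 : 0 ≤ y1) (hy2 : 0 ≤ y2) (hT1 : T ≤ 1)
    (hy0 : 1 - p / 8 < y0) (hK : p / 4 ≤ K0) :
    - (y0 * K0 + y1 * K1 + y2 * K2) ≤ - (T * p / 16) := by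
  have c1 : 0 ≤ y1 * K1 := mul_nonneg hy1 h1
  have c2 : 0 ≤ y2 * K2 := mul_nonneg hy2 h2
  have c3 : (7 / 8) * (p / 4) ≤ y0 * K0 :=
    mul_le_mul (by linarith) hK (by linarith) (by linarith)
  have c4 : T * p ≤ 1 * p := mul_le_mul_of_nonneg_right hT1 hp.le
  linarith

theorem x_large (p a y : ℝ) (hp : 0 < p) (hp1 : p < 1) (hy0 : 1 - p / 8 < y)
    (h : y * (2 - a) ≤ 1) : 1 - a ≤ p / 4 := by
  by_contra hcon
  push Not at hcon
  have h1 : (1 - p / 8) * (1 + p / 4) < y * (2 - a) := by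
    refine mul_lt_mul hy0 (by linarith) (by linarith) (by linarith)
  nlinarith

theorem phi_clean : S_phi_clean := by
  intro p x y hp hp1 hx hy hxy
  have s : ∀ f : ZMod 3 → ℝ, ∑ i, f i = f 0 + f 1 + f 2 := fun f => Fin.sum_univ_three f
  have hx1 : x 0 + x 1 + x 2 = 1 := by rw [← s]; exact hx.2
  have hy1 : y 0 + y 1 + y 2 = 1 := by rw [← s]; exact hy.2
  obtain ⟨u, -, hu⟩ := Finset.exists_max_image (Finset.univ : Finset (ZMod 3)) y
    Finset.univ_nonempty
  have hu' : ∀ s, y s ≤ y u := fun s => hu s (Finset.mem_univ s)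
  have hgap := phi_gap p x y hp hp1 hx hy u hu'
  by_cases hcase : p / 8 ≤ 1 - y u
  · have h1 : (0 : ℝ) ≤ (1 - 3 * p / 2) ^ 2 := sq_nonneg _
    have h2 : (1 - 3 * p / 2) ^ 2 * (p / 8) ≤ (1 - 3 * p / 2) ^ 2 * (1 - y u) :=
      mul_le_mul_of_nonneg_left hcase h1
    linarith
  · push Not at hcase
    have x0 := hx.1 0
    have x1 := hx.1 1
    have x2 := hx.1 2
    have y0 := hy.1 0
    have y1 := hy.1 1
    have y2 := hy.1 2
    have hT : (1 - 3 * p / 2) ^ 2 ≤ 1 := by nlinarith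
    have K0 := lemK p (x 0) (x 1) (x 2) hp hp1 x0 x1 x2 hx1
    have K1 := lemK p (x 1) (x 0) (x 2) hp hp1 x1 x0 x2 (by linarith)
    have K2 := lemK p (x 2) (x 0) (x 1) hp hp1 x2 x0 x1 (by linarith)
    have hxl := x_large p (x u) (y u) hp hp1 (by linarith) (hxy u)
    rw [phi_eq p x y hy]
    have hu'' : u = 0 ∨ u = 1 ∨ u = 2 := by
      fin_cases u
      · left; rfl
      · right; left; rfl
      · right; right; rfl
    rcases hu'' with h | h | h
    · subst h
      have K4 := lemK4 p (x 0) (x 1) (x 2) hp hp1 x0 x1 x2 hx1 hxl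
      exact clean_aux p _ _ _ _ _ _ _ hp hp1 (by linarith) (by linarith) y1 y2 hT (by linarith)
        K4
    · subst h
      have K4 := lemK4 p (x 1) (x 0) (x 2) hp hp1 x1 x0 x2 (by linarith) hxl
      have := clean_aux p
        ((x 0 * log (x 0) + x 1 * log (x 1) + x 2 * log (x 2)) - x 1 * log (1 - p)
          - (1 - x 1) * log (p / 2))
        ((x 0 * log (x 0) + x 1 * log (x 1) + x 2 * log (x 2)) - x 0 * log (1 - p)
          - (1 - x 0) * log (p / 2))
        ((x 0 * log (x 0) + x 1 * log (x 1) + x 2 * log (x 2)) - x 2 * log (1 - p)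
          - (1 - x 2) * log (p / 2)) (y 1) (y 0) (y 2) ((1 - 3 * p / 2) ^ 2)
        hp hp1 (by linarith) (by linarith) y0 y2 hT (by linarith) (by linarith)
      linarith
    · subst h
      have K4 := lemK4 p (x 2) (x 0) (x 1) hp hp1 x2 x0 x1 (by linarith) hxl
      have := clean_aux p
        ((x 0 * log (x 0) + x 1 * log (x 1) + x 2 * log (x 2)) - x 2 * log (1 - p)
          - (1 - x 2) * log (p / 2))
        ((x 0 * log (x 0) + x 1 * log (x 1) + x 2 * log (x 2)) - x 0 * log (1 - p)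
          - (1 - x 0) * log (p / 2))
        ((x 0 * log (x 0) + x 1 * log (x 1) + x 2 * log (x 2)) - x 1 * log (1 - p)
          - (1 - x 1) * log (p / 2)) (y 2) (y 0) (y 1) ((1 - 3 * p / 2) ^ 2)
        hp hp1 (by linarith) (by linarith) y0 y1 hT (by linarith) (by linarith)
      linarith

end Pool.Agent.Helper47.CD
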