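import Pool.Agent.Helper27.CD.Spec

/-! Part P7 of the CD project: fibres. -/

namespace Pool.Agent.Helper47.CD

open Helper27.CD

theorem hd_sum {κ : Type} [Fintype κ] [DecidableEq κ] (x y : κ → ZMod 3) :
    hammingDist x y = ∑ i, if x i ≠ y i then 1 else 0 := by
  unfold hammingDist
  rw [Finset.card_filter]

theorem hd_split {ι : Type} [Fintype ι] [DecidableEq ι] (N : Finset ι) (a b : ι → ZMod 3) :
    hammingDist a b = hammingDist (fun i : N => a i) (fun i : N => b i) +
      hammingDist (fun i : {i // i ∉ N} => a i - b i) 0 := by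
  rw [hd_sum, hd_sum, hd_sum]
  rw [← Finset.sum_add_sum_compl N]
  congr 1
  · exact (Finset.sum_coe_sort N (fun i => if a i ≠ b i then 1 else 0)).symm
  · rw [Finset.sum_subtype (p := fun i => i ∉ N) Nᶜ (fun i => Finset.mem_compl)]
    refine Finset.sum_congr rfl fun i _ => ?_
    simp only [Pi.zero_apply, ne_eq, sub_eq_zero]

theorem fibre_of (hP6 : S_sphere) : S_fibre := by
  intro ι _ _ A B δ hAB N hN
  rw [← Finset.card_product]
  have hmap : ∀ x ∈ A ×ˢ B, ((fun i : N => x.1 i), (fun i : N => x.2 i)) ∈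
      (A.image (fun a => fun i : N => a i)) ×ˢ (B.image (fun b => fun i : N => b i)) := by
    intro x hx
    rw [Finset.mem_product] at hx ⊢
    exact ⟨Finset.mem_image_of_mem _ hx.1, Finset.mem_image_of_mem _ hx.2⟩
  rw [Finset.card_eq_sum_card_fiberwise hmap, Finset.sum_product]
  refine Finset.sum_le_sum fun a' _ => Finset.sum_le_sum fun b' _ => ?_
  have hcard : Fintype.card {i // i ∉ N} = Fintype.card ι - N.card := by
    rw [Fintype.card_subtype_compl, Fintype.card_coe]
  rw [← hcard, ← hP6 {i // i ∉ N} 0 (δ - hammingDist a' b')]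
  refine Finset.card_le_card_of_injOn (fun x => fun i : {i // i ∉ N} => x.1 i - x.2 i) ?_ ?_
  · intro x hx
    rw [Finset.mem_coe, Finset.mem_filter, Finset.mem_product, Prod.mk.injEq] at hx
    obtain ⟨⟨ha, hb⟩, h1, h2⟩ := hx
    rw [Finset.mem_coe, Finset.mem_filter]
    refine ⟨Finset.mem_univ _, ?_⟩
    have h := hd_split N x.1 x.2
    rw [hAB _ ha _ hb] at h
    have e1 : hammingDist (fun i : N => x.1 i) (fun i : N => x.2 i) = hammingDist a' b' := by
      rw [h1, h2]
    rw [e1] at h
    show hammingDist (fun i : {i // i ∉ N} => x.1 i - x.2 i) 0 = _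
    omega
  · intro x hx y hy hxy
    rw [Finset.mem_coe, Finset.mem_filter, Finset.mem_product, Prod.mk.injEq] at hx hy
    obtain ⟨⟨ha, hb⟩, h1, h2⟩ := hx
    obtain ⟨⟨ha', hb'⟩, h1', h2'⟩ := hy
    have key : ∀ i, x.1 i = y.1 i ∧ x.2 i = y.2 i := by
      intro i
      by_cases hi : i ∈ N
      · have e1 := congrFun (h1.trans h1'.symm) ⟨i, hi⟩
        have e2 := congrFun (h2.trans h2'.symm) ⟨i, hi⟩
        exact ⟨e1, e2⟩
      · have e := congrFun hxy ⟨i, hi⟩
        simp only at e
        rcases hN i hi with hc | hc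
        · have e1 := hc _ ha _ ha'
          refine ⟨e1, ?_⟩
          rw [e1] at e
          exact sub_right_injective e
        · have e1 := hc _ hb _ hb'
          refine ⟨?_, e1⟩
          rw [e1] at e
          exact sub_left_injective e
    exact Prod.ext (funext fun i => (key i).1) (funext fun i => (key i).2)

end Pool.Agent.Helper47.CD
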