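import Pool.Agent.Helper27.CD.Spec

/-! Parts P8, P9 of the CD project: binomial coefficients. -/

namespace Pool.Agent.Helper47.CD

open Helper27.CD

theorem choose_zero_step (n δ : ℕ) (hδ : δ ≤ n) : ∀ k, k ≤ n - δ →
    ((n - k).choose δ : ℝ) ≤ (((n : ℝ) - δ) / n) ^ k * (n.choose δ : ℝ) := by
  intro k
  induction k with
  | zero => intro _; simp
  | succ k ih =>
    intro hk
    have ih' := ih (by omega)
    obtain ⟨N, hN⟩ : ∃ N, n - k = N + 1 := ⟨n - k - 1, by omega⟩
    have hN' : n - (k + 1) = N := by omega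
    rw [hN']
    rw [hN] at ih'
    have h1 := Nat.choose_mul_succ_eq N δ
    have hδN : δ ≤ N := by omega
    have h2 : (N.choose δ : ℝ) * ((N : ℝ) + 1) = ((N + 1).choose δ : ℝ) * ((N : ℝ) + 1 - δ) := by
      have : ((N.choose δ * (N + 1) : ℕ) : ℝ) = (((N + 1).choose δ * (N + 1 - δ) : ℕ) : ℝ) := by
        rw [h1]
      rw [Nat.cast_mul, Nat.cast_mul, Nat.cast_sub (by omega)] at this
      push_cast at this
      exact this
    have hNn : (N : ℝ) + 1 ≤ n := by
      have : N + 1 ≤ n := by omega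
      exact_mod_cast this
    have hn0 : (0 : ℝ) < n := by
      have : (0 : ℝ) < (N : ℝ) + 1 := by positivity
      linarith
    have hN1 : (0 : ℝ) < (N : ℝ) + 1 := by positivity
    have h3 : (N.choose δ : ℝ) = (((N : ℝ) + 1 - δ) / ((N : ℝ) + 1)) * ((N + 1).choose δ : ℝ) := by
      field_simp
      linarith
    have h4 : ((N : ℝ) + 1 - δ) / ((N : ℝ) + 1) ≤ ((n : ℝ) - δ) / n := by
      rw [div_le_div_iff₀ hN1 hn0]
      have : (0 : ℝ) ≤ δ := by positivity
      nlinarith
    have h5 : (0 : ℝ) ≤ ((n : ℝ) - δ) / n := by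
      have : (δ : ℝ) ≤ n := by exact_mod_cast hδ
      exact div_nonneg (by linarith) hn0.le
    rw [h3, pow_succ']
    calc (((N : ℝ) + 1 - δ) / ((N : ℝ) + 1)) * ((N + 1).choose δ : ℝ)
        ≤ (((n : ℝ) - δ) / n) * ((N + 1).choose δ : ℝ) :=
          mul_le_mul_of_nonneg_right h4 (by positivity)
      _ ≤ (((n : ℝ) - δ) / n) * ((((n : ℝ) - δ) / n) ^ k * (n.choose δ : ℝ)) :=
          mul_le_mul_of_nonneg_left ih' h5
      _ = _ := by ring

theorem choose_one_step (n' δ M : ℕ) (hM : 0 < M) : ∀ d, d ≤ δ → d + M ≤ n' →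
    ((n' - d).choose (δ - d) : ℝ) ≤ ((δ : ℝ) / M) ^ d * (n'.choose δ : ℝ) := by
  intro d
  induction d with
  | zero => intro _ _; simp
  | succ d ih =>
    intro hd hdM
    have ih' := ih (by omega) (by omega)
    obtain ⟨N, hN⟩ : ∃ N, n' - d = N + 1 := ⟨n' - d - 1, by omega⟩
    obtain ⟨D, hD⟩ : ∃ D, δ - d = D + 1 := ⟨δ - d - 1, by omega⟩
    have hN' : n' - (d + 1) = N := by omega
    have hD' : δ - (d + 1) = D := by omega
    rw [hN', hD']
    rw [hN, hD] at ih'
    have h1 := Nat.add_one_mul_choose_eq N D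
    have h2 : ((N : ℝ) + 1) * (N.choose D : ℝ) = ((N + 1).choose (D + 1) : ℝ) * ((D : ℝ) + 1) := by
      exact_mod_cast h1
    have hM0 : (0 : ℝ) < M := by exact_mod_cast hM
    have hN1 : (0 : ℝ) < (N : ℝ) + 1 := by positivity
    have h3 : (N.choose D : ℝ) = (((D : ℝ) + 1) / ((N : ℝ) + 1)) *
        ((N + 1).choose (D + 1) : ℝ) := by
      field_simp
      linarith
    have h4 : ((D : ℝ) + 1) / ((N : ℝ) + 1) ≤ (δ : ℝ) / M := by
      have a1 : (D : ℝ) + 1 ≤ δ := by
        have : D + 1 ≤ δ := by omega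
        exact_mod_cast this
      have a2 : (M : ℝ) ≤ (N : ℝ) + 1 := by
        have : M ≤ N + 1 := by omega
        exact_mod_cast this
      exact div_le_div₀ (by positivity) a1 hM0 a2
    rw [h3, pow_succ']
    calc (((D : ℝ) + 1) / ((N : ℝ) + 1)) * ((N + 1).choose (D + 1) : ℝ)
        ≤ ((δ : ℝ) / M) * ((N + 1).choose (D + 1) : ℝ) :=
          mul_le_mul_of_nonneg_right h4 (by positivity)
      _ ≤ ((δ : ℝ) / M) * (((δ : ℝ) / M) ^ d * (n'.choose δ : ℝ)) :=
          mul_le_mul_of_nonneg_left ih' (by positivity)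
      _ = _ := by ring

theorem binom : S_binom := by
  intro n m δ d hmn hδ hdm hdδ hmd
  have h1 := choose_zero_step n δ hδ (m - d) hmd
  have h2 := choose_one_step (n - (m - d)) δ (n - m) (by omega) d hdδ (by omega)
  have e1 : n - (m - d) - d = n - m := by omega
  rw [e1] at h2
  have e2 : ((n - m : ℕ) : ℝ) = (n : ℝ) - m := Nat.cast_sub hmn.le
  rw [e2] at h2
  have hM0 : (0 : ℝ) < (n : ℝ) - m := by
    have : (m : ℝ) < n := by exact_mod_cast hmn
    linarith
  have e3 : (2 : ℝ) ^ δ = 2 ^ (δ - d) * 2 ^ d := by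
    rw [← pow_add]; congr 1; omega
  have h3 : ((n - m).choose (δ - d) : ℝ) ≤ ((δ : ℝ) / ((n : ℝ) - m)) ^ d *
      ((((n : ℝ) - δ) / n) ^ (m - d) * (n.choose δ : ℝ)) :=
    h2.trans (mul_le_mul_of_nonneg_left h1 (by positivity))
  calc (2 : ℝ) ^ (δ - d) * ((n - m).choose (δ - d) : ℝ)
      ≤ 2 ^ (δ - d) * (((δ : ℝ) / ((n : ℝ) - m)) ^ d *
      ((((n : ℝ) - δ) / n) ^ (m - d) * (n.choose δ : ℝ))) :=
        mul_le_mul_of_nonneg_left h3 (by positivity)
    _ = 2 ^ δ * (n.choose δ : ℝ) * (((δ : ℝ) / (2 * ((n : ℝ) - m))) ^ d *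
        (((n : ℝ) - δ) / n) ^ (m - d)) := by
        have e4 : ((δ : ℝ) / (2 * ((n : ℝ) - m))) ^ d = ((δ : ℝ) / ((n : ℝ) - m)) ^ d / 2 ^ d := by
          rw [← div_pow]; congr 1; field_simp
        rw [e3, e4]
        field_simp

theorem mode : S_mode := by
  intro n δ hδ hδn
  set p : ℝ := (δ : ℝ) / n with hp
  have hn0 : (0 : ℝ) < n := by
    have : 0 < n := by omega
    exact_mod_cast this
  have hδ0 : (0 : ℝ) < δ := by exact_mod_cast hδ
  have hδn' : (δ : ℝ) < n := by exact_mod_cast hδn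
  have hp0 : 0 < p := div_pos hδ0 hn0
  have hp1 : p < 1 := (div_lt_one hn0).2 hδn'
  have hnp : (n : ℝ) * p = δ := by rw [hp]; field_simp
  set b : ℕ → ℝ := fun k => (n.choose k : ℝ) * p ^ k * (1 - p) ^ (n - k) with hb
  have hb0 : ∀ k, 0 ≤ b k := fun k => by
    rw [hb]
    have : 0 ≤ 1 - p := by linarith
    positivity
  have hstep : ∀ k, k < n → b (k + 1) * (((k : ℝ) + 1) * (1 - p)) = b k * (((n : ℝ) - k) * p) := by
    intro k hk
    have h1 := Nat.choose_succ_right_eq n k
    have h2 : (n.choose (k + 1) : ℝ) * ((k : ℝ) + 1) = (n.choose k : ℝ) * ((n : ℝ) - k) := by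
      have : ((n.choose (k + 1) * (k + 1) : ℕ) : ℝ) = ((n.choose k * (n - k) : ℕ) : ℝ) := by
        rw [h1]
      rw [Nat.cast_mul, Nat.cast_mul, Nat.cast_sub hk.le] at this
      push_cast at this
      exact this
    obtain ⟨j, hj⟩ : ∃ j, n - k = j + 1 := ⟨n - k - 1, by omega⟩
    have hj' : n - (k + 1) = j := by omega
    simp only [hb]
    rw [hj, hj', pow_succ, pow_succ]
    linear_combination (p ^ k * p * (1 - p) ^ j * (1 - p)) * h2
  have hup : ∀ k, k < δ → b k ≤ b (k + 1) := by
    intro k hk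
    have h := hstep k (by omega)
    have hk1 : (k : ℝ) + 1 ≤ δ := by
      have : k + 1 ≤ δ := by omega
      exact_mod_cast this
    have hpos : 0 < ((k : ℝ) + 1) * (1 - p) := mul_pos (by positivity) (by linarith)
    have hle : ((k : ℝ) + 1) * (1 - p) ≤ ((n : ℝ) - k) * p := by
      have e : (δ : ℝ) * (1 - p) = ((n : ℝ) - δ) * p := by
        have : (δ : ℝ) * (1 - p) = δ - δ * p := by ring
        rw [this, sub_mul, hnp]
      calc ((k : ℝ) + 1) * (1 - p) ≤ (δ : ℝ) * (1 - p) :=
            mul_le_mul_of_nonneg_right hk1 (by linarith)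
        _ = ((n : ℝ) - δ) * p := e
        _ ≤ ((n : ℝ) - k) * p := mul_le_mul_of_nonneg_right (by linarith) hp0.le
    have h3 : b k * (((k : ℝ) + 1) * (1 - p)) ≤ b (k + 1) * (((k : ℝ) + 1) * (1 - p)) := by
      rw [h]; exact mul_le_mul_of_nonneg_left hle (hb0 k)
    exact le_of_mul_le_mul_right h3 hpos
  have hdown : ∀ k, δ ≤ k → b (k + 1) ≤ b k := by
    intro k hk
    by_cases hkn : k < n
    · have h := hstep k hkn
      have hk1 : (δ : ℝ) ≤ k := by exact_mod_cast hk
      have hkn' : (k : ℝ) < n := by exact_mod_cast hkn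
      have hpos : 0 < ((k : ℝ) + 1) * (1 - p) := mul_pos (by positivity) (by linarith)
      have hle : ((n : ℝ) - k) * p ≤ ((k : ℝ) + 1) * (1 - p) := by
        have e : (δ : ℝ) * (1 - p) = ((n : ℝ) - δ) * p := by
          have : (δ : ℝ) * (1 - p) = δ - δ * p := by ring
          rw [this, sub_mul, hnp]
        calc ((n : ℝ) - k) * p ≤ ((n : ℝ) - δ) * p :=
              mul_le_mul_of_nonneg_right (by linarith) hp0.le
          _ = (δ : ℝ) * (1 - p) := e.symm
          _ ≤ ((k : ℝ) + 1) * (1 - p) := mul_le_mul_of_nonneg_right (by linarith) (by linarith)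
      have h3 : b (k + 1) * (((k : ℝ) + 1) * (1 - p)) ≤ b k * (((k : ℝ) + 1) * (1 - p)) := by
        rw [h]; exact mul_le_mul_of_nonneg_left hle (hb0 k)
      exact le_of_mul_le_mul_right h3 hpos
    · have : b (k + 1) = 0 := by
        simp only [hb]
        rw [Nat.choose_eq_zero_of_lt (by omega)]
        simp
      rw [this]; exact hb0 k
  have hmax : ∀ k, b k ≤ b δ := by
    intro k
    rcases le_total k δ with hk | hk
    · induction hk using Nat.decreasingInduction with
      | self => exact le_rfl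
      | of_succ j hj ih => exact (hup j (by omega)).trans ih
    · induction k, hk using Nat.le_induction with
      | base => exact le_rfl
      | succ j hj ih => exact (hdown j hj).trans ih
  have hsum : ∑ k ∈ Finset.range (n + 1), b k = 1 := by
    have h := congrArg (Polynomial.eval p) (bernsteinPolynomial.sum ℝ n)
    rw [Polynomial.eval_finsetSum] at h
    simpa [bernsteinPolynomial, hb] using h
  have hmean : ∑ k ∈ Finset.range (n + 1), (k : ℝ) * b k = δ := by
    have h := congrArg (Polynomial.eval p) (bernsteinPolynomial.sum_smul ℝ n)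
    rw [Polynomial.eval_finsetSum] at h
    simp only [bernsteinPolynomial, nsmul_eq_mul, Polynomial.eval_mul, Polynomial.eval_natCast,
      Polynomial.eval_pow, Polynomial.eval_X, Polynomial.eval_sub, Polynomial.eval_one] at h
    rw [hnp] at h
    rw [← h]
  have hsplit : (1 : ℝ) ≤ (2 * δ + 1) * b δ + δ / (2 * δ + 1) := by
    refine hsum.ge.trans ?_
    have h1 : ∑ k ∈ Finset.range (n + 1), b k ≤
        ∑ k ∈ Finset.range (n + 1), ((if k < 2 * δ + 1 then b δ else 0) +
          (k : ℝ) * b k / (2 * δ + 1)) := by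
      refine Finset.sum_le_sum fun k _ => ?_
      have hpos : (0 : ℝ) < 2 * δ + 1 := by positivity
      split_ifs with hk
      · have := hmax k
        have h2 : 0 ≤ (k : ℝ) * b k / (2 * δ + 1) :=
          div_nonneg (mul_nonneg (by positivity) (hb0 k)) hpos.le
        linarith
      · rw [zero_add, le_div_iff₀ hpos, mul_comm]
        refine mul_le_mul_of_nonneg_right ?_ (hb0 k)
        have : 2 * δ + 1 ≤ k := by omega
        exact_mod_cast this
    refine h1.trans ?_
    rw [Finset.sum_add_distrib, ← Finset.sum_div, hmean]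
    have h3 : ∑ k ∈ Finset.range (n + 1), (if k < 2 * δ + 1 then b δ else 0) ≤
        (2 * δ + 1) * b δ := by
      rw [← Finset.sum_filter, Finset.sum_const, nsmul_eq_mul]
      refine mul_le_mul_of_nonneg_right ?_ (hb0 δ)
      have h4 : ((Finset.range (n + 1)).filter (fun k => k < 2 * δ + 1)).card ≤ 2 * δ + 1 := by
        calc ((Finset.range (n + 1)).filter (fun k => k < 2 * δ + 1)).card
            ≤ (Finset.range (2 * δ + 1)).card := by
              refine Finset.card_le_card fun k hk => ?_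
              rw [Finset.mem_filter] at hk
              exact Finset.mem_range.2 hk.2
          _ = 2 * δ + 1 := Finset.card_range _
      exact_mod_cast h4
    linarith
  have hpos : (0 : ℝ) < 2 * δ + 1 := by positivity
  have h5 : (δ : ℝ) / (2 * δ + 1) ≤ 1 / 2 := by
    rw [div_le_div_iff₀ hpos (by norm_num)]
    linarith
  have h6 : 1 / 2 ≤ (2 * δ + 1) * b δ := by linarith
  have h7 : 1 / (4 * (δ : ℝ) + 2) ≤ b δ := by
    rw [div_le_iff₀ (by positivity)]
    linarith
  exact h7

end Pool.Agent.Helper47.CD
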